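import Mathlib
import Pool.Agent.Helper952.Croft.Glue2
import Pool.Agent.Helper991.Croft.AI2
import Pool.Agent.Y253.CR.Disc
import Pool.Agent.Y253.CR.Base
import Pool.Agent.Y253.CR.Area
import Pool.Agent.Y253.CR.Multi
import Pool.Agent.Y253.CR.Close
import Pool.Agent.Y253.CR.Inj
import Pool.Agent.Y253.CR.Fin

/-!
# Croft's question: dense counterexamples which miss continuum many small lengths

helper253 (adaptive construction, limit, assembly), with helper41 (starting densities), helper73
(levels and areas), helper436 (killing finitely many levels at once), helper684 (closeness of the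
limit), helper450 (branching), helper339 (transport to the plane), on top of the starting library of
helper952, helper991, helper445 and helper546 (the kill lemma and the almost indicator lemma).
-/

open MeasureTheory

namespace Pool.Agent.Results.MP_f884a2_an.DenseSections

/-- **Croft's question fails densely, and for continuum many small lengths.** Let `F` be any Lebesgue
measurable subset of the plane of finite area (possibly of positive area, for instance a disc) and
`ε > 0`. There is a bounded Borel set `E` with `0 < λ₂(E) < ∞` and `λ₂(E ∆ F) < ε` such that for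
every `t₀ > 0` the set of those `t ∈ (0, t₀)` which are not the length of any line section of `E` has
the cardinality of the continuum.

The line through `a` with unit direction `v` is `{a + s • v | s ∈ ℝ}`, and `s ↦ a + s • v` is an
isometry of `ℝ` onto it, so the length of the section is the Lebesgue measure of
`{s | a + s • v ∈ E}`; all line sections of a Borel set are Borel. -/
theorem result (F : Set (EuclideanSpace ℝ (Fin 2))) (hF : NullMeasurableSet F volume)
    (hfin : volume F < ⊤) (ε : ℝ) (hε : 0 < ε) :
    ∃ E : Set (EuclideanSpace ℝ (Fin 2)),
      MeasurableSet E ∧ Bornology.IsBounded E ∧ 0 < volume E ∧ volume E < ⊤ ∧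
      volume (symmDiff E F) < ENNReal.ofReal ε ∧
      ∀ t₀ : ℝ, 0 < t₀ → Cardinal.mk {t : ℝ | 0 < t ∧ t < t₀ ∧
        ∀ a v : EuclideanSpace ℝ (Fin 2), ‖v‖ = 1 →
          volume {s : ℝ | a + s • v ∈ E} ≠ ENNReal.ofReal t} = Cardinal.continuum :=
  Y253.CR.fin (Y253.CR.disc Y253.CR.base Y253.CR.lev Y253.CR.area Y253.CR.multi Y253.CR.close
    Y253.CR.inj Croft.kill2Stmt
    (fun h hh hpos ε hε => Croft.almost_indicator2 h hh hpos ε hε)) F hF hfin ε hε

end Pool.Agent.Results.MP_f884a2_an.DenseSections
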